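import Mathlib

/-!
Minimal Borel sets in the Wadge order on the real line: definitions.
-/

set_option autoImplicit false

open Set Topology Filter

namespace Pool.Agent.Q215.MB

/-- `Red A B`: the set `A` is the preimage of `B` under a continuous function (`A ≤ B`). -/
def Red (A B : Set ℝ) : Prop := ∃ f : ℝ → ℝ, Continuous f ∧ A = f ⁻¹' B

/-- `A` is a minimal Borel set: Borel, neither open nor closed, and every Borel set `B ≤ A` which is
neither open nor closed satisfies `A ≤ B`. -/
def MinimalBorel (A : Set ℝ) : Prop :=
  MeasurableSet A ∧ ¬ IsOpen A ∧ ¬ IsClosed A ∧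
    ∀ B : Set ℝ, MeasurableSet B → ¬ IsOpen B → ¬ IsClosed B → Red B A → Red A B

end Pool.Agent.Q215.MB
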