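import Pool.Agent.Q215.MB.Stm
import Pool.Agent.Q215.WR.Ext

/-!
Generic presentations with an arbitrary index set: the extension property.
-/

set_option autoImplicit false

open Set Topology Filter

namespace Pool.Agent.Q215.MB

open Pool.Agent.Q215.WR (Two Lim Flat Meets three_right three_left lim_side ng two_ng lim_ng
  countable_ng dense_ng meets_ng)

variable {ι : Type} [LinearOrder ι]

/-- generic presentations with marks inside and outside -/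
structure Gen2 (bot : ι) (R : ι → Prop) (N Dm : Set ℝ) (D : ι → Set ℝ) : Prop where
  bot_le : ∀ a, bot ≤ a
  bot_eq : D bot = ∅
  closed : ∀ a, IsClosed (D a)
  mono : ∀ a b, a ≤ b → D a ⊆ D b
  closedlt : ∀ a, a ≠ bot → R a → IsClosed {x | ∃ b, b < a ∧ x ∈ D b}
  lims : ∀ a, a ≠ bot → ¬ R a → D a ⊆ closure {x | ∃ b, b < a ∧ x ∈ D b}
  countN : N.Countable
  countD : Dm.Countable
  subN : ∀ x ∈ N, ∃ a, x ∈ D a
  disjD : ∀ x ∈ Dm, ∀ a, x ∉ D a
  denseN : Dense N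
  denseD : Dense Dm
  lim : ∀ a, a ≠ bot → R a → ∀ x ∈ D a, Lim (N ∩ Lay D a) x
  two : ∀ a b, b < a → ∀ x ∈ D b, Two (N ∩ Lay D a) x
  twoN : ∀ a, a ≠ bot → ∀ x ∈ N ∩ Lay D a, Two (D a) x
  unb : ∀ a, a ≠ bot → ∀ r : ℝ, (∃ x ∈ D a, r < x) ∧ ∃ x ∈ D a, x < r

variable {bot : ι} {R : ι → Prop} {N Dm : Set ℝ} {D : ι → Set ℝ}

lemma ne_bot_of_meets (hG : Gen2 bot R N Dm D) {a : ι} {g h : EReal} (h1 : Meets (D a) g h) :
    a ≠ bot := by
  rintro rfl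
  obtain ⟨x, hx, -⟩ := h1
  rw [hG.bot_eq] at hx
  exact hx

lemma three_points2 (hG : Gen2 bot R N Dm D) {g h : EReal} {a b : ι} (hab : a ≤ b)
    (hRa : R a) (hRb : R b) (hgh : g < h) (hm : ∀ m, Meets (D m) g h ↔ a ≤ m)
    (hT : h = ⊤ → ∀ m, m ≠ bot → b ≤ m)
    (hh : ∀ m, ∀ x ∈ D m, (x : EReal) = h → b ≤ m) :
    ∃ z1 z2 z3 : ℝ, z1 < z2 ∧ z2 < z3 ∧ g < (z1 : EReal) ∧ (z3 : EReal) < h ∧
      z1 ∈ N ∩ Lay D b ∧ z2 ∈ N ∩ Lay D b ∧ z3 ∈ N ∩ Lay D b ∧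
      (∀ m, m < b → ∀ y ∈ D m, ¬ (z1 < y ∧ (y : EReal) < h)) ∧
      ∃ y ∈ D a, g < (y : EReal) ∧ y ≤ z1 := by
  have hane : a ≠ bot := ne_bot_of_meets hG ((hm a).2 le_rfl)
  rcases hab.lt_or_eq with hlt | rfl
  · have hbne : b ≠ bot := fun e => absurd (lt_of_lt_of_le hlt (e ▸ hG.bot_le a)) (lt_irrefl _)
    have hnT : h ≠ ⊤ := fun e => absurd (hT e a hane) (not_le_of_gt hlt)
    have hnB : h ≠ ⊥ := (bot_le.trans_lt hgh).ne'
    lift h to ℝ using ⟨hnT, hnB⟩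
    have hne : ∃ x ∈ D a, g < (x : EReal) ∧ (x : EReal) < (h : EReal) := (hm a).2 le_rfl
    set W : Set ℝ := {x | (∃ c, c < b ∧ x ∈ D c) ∧ g < (x : EReal) ∧ x < h} with hW
    have hWne : W.Nonempty := by
      obtain ⟨x, h1, h2, h3⟩ := hne
      exact ⟨x, ⟨a, hlt, h1⟩, h2, EReal.coe_lt_coe_iff.1 h3⟩
    have hWb : BddAbove W := ⟨h, fun x hx => hx.2.2.le⟩
    have hsup : ∃ c, c < b ∧ sSup W ∈ D c := by
      have h1 := csSup_mem_closure hWne hWb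
      exact (closure_minimal (fun x hx => hx.1) (hG.closedlt b hbne hRb)) h1
    obtain ⟨c, hcb, hsup⟩ := hsup
    have hgs : g < ((sSup W : ℝ) : EReal) := by
      obtain ⟨w, hw⟩ := hWne
      exact lt_of_lt_of_le hw.2.1 (EReal.coe_le_coe_iff.2 (le_csSup hWb hw))
    have hsh : sSup W < h := by
      refine lt_of_le_of_ne (csSup_le hWne fun x hx => hx.2.2.le) fun e => ?_
      have := hh c _ hsup (by rw [e])
      exact absurd hcb (not_lt_of_ge this)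
    obtain ⟨z1, z2, z3, h12, h23, hx1, h3, m1, m2, m3⟩ :=
      three_right hsh fun ε hε => (hG.two b c hcb _ hsup ε hε).2
    refine ⟨z1, z2, z3, h12, h23, hgs.trans (EReal.coe_lt_coe_iff.2 hx1),
      EReal.coe_lt_coe_iff.2 h3, m1, m2, m3, ?_, ?_⟩
    · rintro m hmb y hy ⟨h1, h2⟩
      have : y ∈ W := ⟨⟨m, hmb, hy⟩, hgs.trans (EReal.coe_lt_coe_iff.2 (hx1.trans h1)),
        EReal.coe_lt_coe_iff.1 h2⟩
      have := le_csSup hWb this
      linarith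
    · obtain ⟨x, h1, h2, h3⟩ := hne
      have : x ∈ W := ⟨⟨a, hlt, h1⟩, h2, EReal.coe_lt_coe_iff.1 h3⟩
      exact ⟨x, h1, h2, (le_csSup hWb this).trans hx1.le⟩
  · obtain ⟨x, hx, hgx, hxh⟩ := (hm a).2 le_rfl
    have hno : ∀ m, m < a → ∀ y ∈ D m, g < (y : EReal) → ¬ (y : EReal) < h := by
      intro m hma y hy h1 h2
      exact absurd hma (not_lt_of_ge ((hm m).1 ⟨y, hy, h1, h2⟩))
    obtain ⟨u, hgu, hux⟩ := EReal.lt_iff_exists_real_btwn.1 hgx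
    obtain ⟨v, hxv, hvh⟩ := EReal.lt_iff_exists_real_btwn.1 hxh
    rw [EReal.coe_lt_coe_iff] at hux hxv
    rcases lim_side (hG.lim a hane hRa x hx) with hs | hs
    · obtain ⟨z1, z2, z3, h12, h23, hx1, h3, m1, m2, m3⟩ := three_right hxv hs
      have hg1 : g < (z1 : EReal) := hgx.trans (EReal.coe_lt_coe_iff.2 hx1)
      exact ⟨z1, z2, z3, h12, h23, hg1, (EReal.coe_lt_coe_iff.2 h3).trans hvh, m1, m2, m3,
        fun m hma y hy h => hno m hma y hy (hg1.trans (EReal.coe_lt_coe_iff.2 h.1)) h.2,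
        ⟨z1, m1.2.1, hg1, le_rfl⟩⟩
    · obtain ⟨z1, z2, z3, h12, h23, hu1, h3, m1, m2, m3⟩ := three_left hux hs
      have hg1 : g < (z1 : EReal) := hgu.trans (EReal.coe_lt_coe_iff.2 hu1)
      exact ⟨z1, z2, z3, h12, h23, hg1, (EReal.coe_lt_coe_iff.2 h3).trans hxh, m1, m2, m3,
        fun m hma y hy h => hno m hma y hy (hg1.trans (EReal.coe_lt_coe_iff.2 h.1)) h.2,
        ⟨z1, m1.2.1, hg1, le_rfl⟩⟩

lemma ext_right2 (hG : Gen2 bot R N Dm D) {g h : EReal} {a b : ι} (hab : a ≤ b)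
    (hRa : R a) (hRb : R b) (hgh : g < h) (hm : ∀ m, Meets (D m) g h ↔ a ≤ m)
    (hT : h = ⊤ → ∀ m, m ≠ bot → b ≤ m)
    (hh : ∀ m, ∀ x ∈ D m, (x : EReal) = h → b ≤ m) (c : WithTop ι) (hc : (b : WithTop ι) ≤ c) :
    ∃ k ∈ N ∪ Dm, g < (k : EReal) ∧ (k : EReal) < h ∧ (∀ m : ι, k ∈ D m ↔ c ≤ (m : WithTop ι)) ∧
      (∀ m, Meets (D m) g (k : EReal) ↔ a ≤ m) ∧ (∀ m, Meets (D m) (k : EReal) h ↔ b ≤ m) := by
  obtain ⟨z1, z2, z3, h12, h23, hg1, h3h, m1, m2, m3, hno, y, hy, hgy, hy1⟩ :=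
    three_points2 hG hab hRa hRb hgh hm hT hh
  have key : ∃ k ∈ N ∪ Dm, z1 < k ∧ k < z3 ∧ ∀ m : ι, k ∈ D m ↔ c ≤ (m : WithTop ι) := by
    induction c using WithTop.recTopCoe with
    | top =>
      obtain ⟨k, hk, h1, h2⟩ := hG.denseD.exists_between (h12.trans h23)
      refine ⟨k, Or.inr hk, h1, h2, fun m => ?_⟩
      constructor
      · intro h
        exact absurd h (hG.disjD k hk m)
      · intro h
        exact absurd h (by simp)
    | coe c =>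
      have hbc : b ≤ c := WithTop.coe_le_coe.1 hc
      have hlay : ∀ k, k ∈ Lay D c → ∀ m : ι, k ∈ D m ↔ (c : WithTop ι) ≤ (m : WithTop ι) := by
        intro k hk m
        rw [WithTop.coe_le_coe]
        constructor
        · intro h
          by_contra hcon
          exact hk.2 m (not_le.1 hcon) h
        · intro h
          exact hG.mono c m h hk.1
      rcases hbc.lt_or_eq with hlt | rfl
      · obtain ⟨⟨k, hk, h1, h2⟩, -⟩ := hG.two c b hlt z2 m2.2.1 (z2 - z1) (by linarith)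
        exact ⟨k, Or.inl hk.1, by linarith, by linarith, hlay k hk.2⟩
      · exact ⟨z2, Or.inl m2.1, h12, h23, hlay z2 m2.2⟩
  obtain ⟨k, hk, h1k, hk3, hlev⟩ := key
  have hgk : g < (k : EReal) := hg1.trans (EReal.coe_lt_coe_iff.2 h1k)
  have hkh : (k : EReal) < h := (EReal.coe_lt_coe_iff.2 hk3).trans h3h
  refine ⟨k, hk, hgk, hkh, hlev, fun m => ⟨?_, ?_⟩, fun m => ⟨?_, ?_⟩⟩
  · rintro ⟨x, hx, h1, h2⟩
    exact (hm m).1 ⟨x, hx, h1, h2.trans hkh⟩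
  · intro h
    exact ⟨y, hG.mono a m h hy, hgy, EReal.coe_lt_coe_iff.2 (lt_of_le_of_lt hy1 h1k)⟩
  · rintro ⟨x, hx, h1, h2⟩
    by_contra hcon
    exact hno m (not_le.1 hcon) x hx ⟨h1k.trans (EReal.coe_lt_coe_iff.1 h1), h2⟩
  · intro h
    exact ⟨z3, hG.mono b m h m3.2.1, EReal.coe_lt_coe_iff.2 hk3, h3h⟩

lemma lay_ng (a : ι) : Lay (fun a => ng (D a)) a = ng (Lay D a) := rfl

lemma gen_ng2 (hG : Gen2 bot R N Dm D) : Gen2 bot R (ng N) (ng Dm) (fun a => ng (D a)) where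
  bot_le := hG.bot_le
  bot_eq := by
    show ng (D bot) = ∅
    rw [hG.bot_eq]
    rfl
  closed a := (hG.closed a).preimage continuous_neg
  mono a b h x hx := hG.mono a b h hx
  closedlt a h1 h2 := (hG.closedlt a h1 h2).preimage continuous_neg
  lims a h1 h2 := by
    intro x hx
    have h3 := hG.lims a h1 h2 hx
    rw [mem_closure_iff_nhds] at h3 ⊢
    intro U hU
    have h4 : (fun y : ℝ => -y) ⁻¹' U ∈ 𝓝 (-x) := by
      refine continuous_neg.continuousAt.preimage_mem_nhds ?_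
      rwa [neg_neg]
    obtain ⟨y, hy, b, hb, hyb⟩ := h3 _ h4
    refine ⟨-y, hy, b, hb, ?_⟩
    show - -y ∈ D b
    rwa [neg_neg]
  countN := countable_ng hG.countN
  countD := countable_ng hG.countD
  subN x hx := hG.subN (-x) hx
  disjD x hx a h := hG.disjD _ hx a h
  denseN := dense_ng hG.denseN
  denseD := dense_ng hG.denseD
  lim a h1 h2 x hx := lim_ng (hG.lim a h1 h2 (-x) hx)
  two a b h x hx := two_ng (hG.two a b h (-x) hx)
  twoN a h x hx := two_ng (hG.twoN a h (-x) hx)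
  unb a h r := by
    obtain ⟨⟨x, hx, h1⟩, y, hy, h2⟩ := hG.unb a h (-r)
    refine ⟨⟨-y, ?_, by linarith⟩, -x, ?_, by linarith⟩
    · show - -y ∈ D a
      rwa [neg_neg]
    · show - -x ∈ D a
      rwa [neg_neg]

theorem ext2 (hG : Gen2 bot R N Dm D) (g h : EReal) (hgh : g < h) (a b : ι) (hRa : R a)
    (hRb : R b) (hm : ∀ m, Meets (D m) g h ↔ min a b ≤ m)
    (hB : g = ⊥ → ∀ m, m ≠ bot → a ≤ m) (hT : h = ⊤ → ∀ m, m ≠ bot → b ≤ m)
    (hg : ∀ m, ∀ x ∈ D m, (x : EReal) = g → a ≤ m)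
    (hh : ∀ m, ∀ x ∈ D m, (x : EReal) = h → b ≤ m)
    (c : WithTop ι) (hac : (a : WithTop ι) ≤ c) (hbc : (b : WithTop ι) ≤ c) :
    ∃ k ∈ N ∪ Dm, g < (k : EReal) ∧ (k : EReal) < h ∧ (∀ m : ι, k ∈ D m ↔ c ≤ (m : WithTop ι)) ∧
      (∀ m, Meets (D m) g (k : EReal) ↔ a ≤ m) ∧ (∀ m, Meets (D m) (k : EReal) h ↔ b ≤ m) := by
  rcases le_total a b with hab | hab
  · rw [min_eq_left hab] at hm
    exact ext_right2 hG hab hRa hRb hgh hm hT hh c hbc
  · rw [min_eq_right hab] at hm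
    have hm' : ∀ m, Meets ((fun n => ng (D n)) m) (-h) (-g) ↔ b ≤ m := fun m =>
      meets_ng.trans (hm m)
    obtain ⟨k, hk, h1, h2, h3, h4, h5⟩ := ext_right2 (gen_ng2 hG) (g := -h) (h := -g) hab hRb hRa
      (EReal.neg_lt_neg_iff.2 hgh) hm' (fun e => hB (by rw [← neg_neg g, e]; rfl))
      (fun m x hx e => hg m (-x) hx (by rw [EReal.coe_neg, e, neg_neg])) c hac
    refine ⟨-k, hk, ?_, ?_, fun m => h3 m, fun m => ?_, fun m => ?_⟩
    · rw [EReal.coe_neg]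
      exact EReal.lt_neg_comm.1 h2
    · rw [EReal.coe_neg]
      exact EReal.neg_lt_comm.1 h1
    · rw [← h5 m, EReal.coe_neg]
      have := (meets_ng (A := D m) (g := g) (h := -(k : EReal)))
      rw [neg_neg] at this
      exact this.symm
    · rw [← h4 m, EReal.coe_neg]
      have := (meets_ng (A := D m) (g := -(k : EReal)) (h := h))
      rw [neg_neg] at this
      exact this.symm

end Pool.Agent.Q215.MB
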