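import Pool.Agent.Q215.MB.Main
import Pool.Agent.Q91.MB.Stepr
import Pool.Agent.Q203.MB.PresS
import Pool.Agent.Q278.MB.Pull
import Pool.Agent.Q278.MB.Quot
import Pool.Agent.Q186.MB.Low
import Pool.Agent.Q94.MB.Tb
import Pool.Agent.Q234.MB.Pres0
import Pool.Agent.Q186.MBT.Trans
import Pool.Agent.Q214.WR.ColP
import Pool.Agent.Q220.WR.Lift
import Pool.Agent.Q220.WR.Plat
import Pool.Agent.Q220.WR.Baf

/-!
Assembly of the proved lemmas.
-/

set_option autoImplicit false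

namespace Pool.Agent.Q215.MB

theorem presAt (j i : ℕ) : PresAt j i := by
  induction j generalizing i with
  | zero => exact Q234.MB.Pres0.t_pres0 Q91.MB.Stepr.t_stepr i
  | succ j ih => exact Q203.MB.t_presS Q91.MB.Stepr.t_stepr j i (ih (i + 1))

theorem final' (hTa : C_Ta) : ∃ A : ℕ → Set ℝ, (∀ n, MinimalBorel (A n)) ∧
    ∀ m n, m ≠ n → ¬ Red (A m) (A n) :=
  final Q214.WR.Col.col Q220.WR.t_lift Q220.WR.t_baf Q220.WR.t_plat Q278.MB.t_quot
    Q186.MB.t_trans Q278.MB.t_pull Q186.MB.t_low (Q94.MB.t_Tb Q186.MB.t_trans hTa) presAt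

end Pool.Agent.Q215.MB
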