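import Pool.Agent.Q215.MB.Iso

/-!
Assembly: minimal Borel sets from level functions.
-/

set_option autoImplicit false

open Set Topology Filter

namespace Pool.Agent.Q215.MB

open Pool.Agent.Q215.WR (Two Lim Flat S_col S_lift S_plat S_baf)

theorem red_trans {A B C : Set ℝ} (h1 : Red A B) (h2 : Red B C) : Red A C := by
  obtain ⟨f, hf, rfl⟩ := h1
  obtain ⟨g, hg, rfl⟩ := h2
  exact ⟨g ∘ f, hg.comp hf, rfl⟩

/-- pieces of level one in every interval, avoiding `N'` -/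
def TR (l : ℝ → ℕ) (j : ℕ) (N' : Set ℝ) : Prop :=
  ∀ u v : ℝ, u < v → ∃ P : Set ℝ, P ⊆ Ioo u v ∧ Pc l j 1 P ∧ ∀ x ∈ P, x ∉ N'

lemma Pc.core {l : ℝ → ℕ} {j i : ℕ} {P : Set ℝ} (h : Pc l j i P) : Core l i P := by
  cases j with
  | zero => exact h
  | succ j => exact h.1

lemma adm0 {l : ℝ → ℕ} {j : ℕ} {N' : Set ℝ} (hT : TR l j N') (hd : Dense {x | l x = 0}) :
    Adm l 0 j N' univ ∅ where
  closedU := isClosed_univ
  closedV := isClosed_empty
  sub := empty_subset _
  twoV x hx := absurd hx (notMem_empty x)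
  twoU x _ _ := by
    intro ε hε
    exact ⟨⟨x - ε / 2, ⟨mem_univ _, notMem_empty _⟩, by linarith, by linarith⟩, x + ε / 2,
      ⟨mem_univ _, notMem_empty _⟩, by linarith, by linarith⟩
  piece u v h := by
    obtain ⟨x, -, hx⟩ := h
    obtain ⟨P, h1, h2, h3⟩ := hT u v (hx.1.trans hx.2)
    exact ⟨P, fun y hy => ⟨⟨mem_univ _, notMem_empty _⟩, h1 hy⟩, h2, h3⟩
  low u v h := by
    obtain ⟨x, -, hx⟩ := h
    obtain ⟨y, hy, h1, h2⟩ := hd.exists_between (hx.1.trans hx.2)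
    exact ⟨y, ⟨⟨mem_univ _, notMem_empty _⟩, h1, h2⟩, le_of_eq hy⟩
  unb r := ⟨⟨r + 1, ⟨mem_univ _, notMem_empty _⟩, by linarith⟩, r - 1,
    ⟨mem_univ _, notMem_empty _⟩, by linarith⟩

section

variable {ι : Type} [LinearOrder ι] [WellFoundedLT ι] {bot : ι} {R : ι → Prop} {e : ι → ℕ}

lemma mem_union_iff {l : ℝ → ℕ} {N' : Set ℝ} {D : ι → Set ℝ} {N : Set ℝ}
    (hP : Pres ι bot R e l 0 N' univ ∅ D N) (x : ℝ) : (∃ a, x ∈ D a) ↔ 1 ≤ l x := by
  rw [← mem_iUnion, hP.union]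
  constructor
  · rintro (h | h)
    · exact absurd h (notMem_empty x)
    · exact h.1
  · intro h
    exact Or.inr ⟨h, mem_univ x⟩

lemma gen2_of_pres {l : ℝ → ℕ} {j : ℕ} {N' : Set ℝ} {D : ι → Set ℝ} {N Dm : Set ℝ}
    (hb : ∀ a, bot ≤ a) (hT : TR l j N')
    (hP : Pres ι bot R e l 0 N' univ ∅ D N) (hc : Dm.Countable) (hd : Dense Dm)
    (h0 : ∀ x ∈ Dm, l x = 0) : Gen2 bot R N Dm D where
  bot_le := hb
  bot_eq := hP.bot_eq
  closed := hP.closed
  mono := hP.mono
  closedlt := hP.closedlt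
  lims := hP.lims
  countN := hP.countN
  countD := hc
  subN x hx := (mem_union_iff hP x).2 (hP.subN hx).1
  disjD x hx a ha := by
    have := (mem_union_iff hP x).1 ⟨a, ha⟩
    rw [h0 x hx] at this
    omega
  denseN := by
    refine dense_of_exists_between fun u v huv => ?_
    obtain ⟨P, h1, h2, -⟩ := hT u v huv
    obtain ⟨x, hx⟩ := h2.core.2.1
    have hxl : 1 ≤ l x := h2.core.2.2.1 x hx
    obtain ⟨a, ha⟩ := BF2.lev (P := fun m => x ∈ D m) ((mem_union_iff hP x).2 hxl)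
      fun m n hmn h => hP.mono m n hmn h
    have hxD : x ∈ D a := (ha a).2 le_rfl
    have hab : a ≠ bot := by
      rintro rfl
      rw [hP.bot_eq] at hxD
      exact hxD
    have hxI : x ∈ Ioo u v := h1 hx
    by_cases hR : R a
    · obtain ⟨z, hz, -, hzd⟩ := hP.lim a hab hR x hxD (min (x - u) (v - x))
        (lt_min (by linarith [hxI.1]) (by linarith [hxI.2]))
      rw [abs_lt] at hzd
      have e1 := min_le_left (x - u) (v - x)
      have e2 := min_le_right (x - u) (v - x)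
      exact ⟨z, hz.1, by linarith [hzd.1], by linarith [hzd.2]⟩
    · obtain ⟨y, hy, b, hb', hyb⟩ := mem_closure_iff_nhds.1 (hP.lims a hab hR hxD) _
        (Ioo_mem_nhds hxI.1 hxI.2)
      obtain ⟨-, z, hz, h3, h4⟩ := hP.two a b hb' y hyb (v - y) (by linarith [hy.2])
      exact ⟨z, hz.1, by linarith [hy.1], by linarith⟩
  denseD := hd
  lim := hP.lim
  two := hP.two
  twoN := hP.twoN
  unb a h r := by
    obtain ⟨⟨x, hx, h1⟩, y, hy, h2⟩ := hP.unb a h r
    exact ⟨⟨x, hx.2.1, h1⟩, y, hy.2.1, h2⟩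

lemma lev_eq {l l' : ℝ → ℕ} {N1 N2 : Set ℝ} {D D' : ι → Set ℝ} {N N' : Set ℝ}
    (hP : Pres ι bot R e l 0 N1 univ ∅ D N) (hP' : Pres ι bot R e l' 0 N2 univ ∅ D' N')
    (Φ : ℝ ≃o ℝ) (hΦ : ∀ n x, x ∈ D n ↔ Φ x ∈ D' n) (x : ℝ) : l' (Φ x) = l x := by
  by_cases h : ∃ a, x ∈ D a
  · obtain ⟨a, ha⟩ := BF2.lev (P := fun m => x ∈ D m) h fun m n hmn h => hP.mono m n hmn h
    have hxD : x ∈ D a := (ha a).2 le_rfl
    have hab : a ≠ bot := by
      rintro rfl
      rw [hP.bot_eq] at hxD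
      exact hxD
    have h1 : x ∈ Lay D a := ⟨hxD, fun b hb h => absurd hb (not_lt_of_ge ((ha b).1 h))⟩
    have h2 : Φ x ∈ Lay D' a := ⟨(hΦ a x).1 hxD, fun b hb h => h1.2 b hb ((hΦ b x).2 h)⟩
    rw [hP.lev a hab x h1, hP'.lev a hab _ h2]
  · have h1 : ¬ 1 ≤ l x := fun h' => h ((mem_union_iff hP x).2 h')
    have h2 : ¬ 1 ≤ l' (Φ x) := fun h' => by
      obtain ⟨a, ha⟩ := (mem_union_iff hP' (Φ x)).2 h'
      exact h ⟨a, (hΦ a x).2 ha⟩
    omega

end

lemma last_point {p : ℝ → ℝ} (pm : Monotone p) (pc : Continuous p) (ps : Function.Surjective p)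
    (y : ℝ) : ∃ r, p r = y ∧ ∀ x, r < x → y < p x := by
  obtain ⟨x1, hx1⟩ := ps (y + 1)
  obtain ⟨x0, hx0⟩ := ps y
  have hne : {x | p x ≤ y}.Nonempty := ⟨x0, hx0.le⟩
  have hb : BddAbove {x | p x ≤ y} := by
    refine ⟨x1, fun x hx => ?_⟩
    by_contra hcon
    have := pm (not_le.1 hcon).le
    have h2 : p x ≤ y := hx
    linarith
  have hcl : IsClosed {x | p x ≤ y} := isClosed_le pc continuous_const
  have hmem : p (sSup {x | p x ≤ y}) ≤ y := hcl.csSup_mem hne hb
  refine ⟨sSup {x | p x ≤ y}, le_antisymm hmem ?_, fun x hx => ?_⟩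
  · have := pm (le_csSup hb (show x0 ∈ {x | p x ≤ y} from hx0.le))
    rwa [hx0] at this
  · by_contra hcon
    exact absurd (le_csSup hb (show x ∈ {x | p x ≤ y} from not_lt.1 hcon)) (not_le_of_gt hx)

lemma not_open {p : ℝ → ℝ} (pm : Monotone p) (pc : Continuous p) (ps : Function.Surjective p)
    {A : Set ℝ} (hA : A.Nonempty) (hd : Dense Aᶜ) : ¬ IsOpen (p ⁻¹' A) := by
  intro ho
  obtain ⟨y, hy⟩ := hA
  obtain ⟨r, hr, hlast⟩ := last_point pm pc ps y
  obtain ⟨ε, hε, hb⟩ := Metric.isOpen_iff.1 ho r (show p r ∈ A by rw [hr]; exact hy)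
  have h1 : y < p (r + ε / 2) := hlast _ (by linarith)
  obtain ⟨z, hz, hz1, hz2⟩ := hd.exists_between h1
  obtain ⟨x, hx, hxz⟩ := intermediate_value_Icc (show r ≤ r + ε / 2 by linarith) pc.continuousOn
    (show z ∈ Icc (p r) (p (r + ε / 2)) from ⟨by rw [hr]; exact hz1.le, hz2.le⟩)
  have : x ∈ p ⁻¹' A := by
    refine hb ?_
    rw [Metric.mem_ball, Real.dist_eq, abs_lt]
    constructor <;> linarith [hx.1, hx.2]
  rw [mem_preimage, hxz] at this
  exact hz this

lemma fs_comp {l : ℝ → ℕ} (h : FS l) {f : ℝ → ℝ} (hf : Continuous f) : FS (fun x => l (f x)) := by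
  intro k
  obtain ⟨H, h1, h2⟩ := h k
  refine ⟨fun m => f ⁻¹' H m, fun m => (h1 m).preimage hf, ?_⟩
  rw [← preimage_iUnion, h2]
  rfl

lemma fs_meas {l : ℝ → ℕ} (h : FS l) : MeasurableSet {x | Odd (l x)} := by
  have hk : ∀ k, MeasurableSet {x | k ≤ l x} := by
    intro k
    obtain ⟨H, h1, h2⟩ := h k
    rw [← h2]
    exact MeasurableSet.iUnion fun m => (h1 m).measurableSet
  have e : {x | Odd (l x)} = ⋃ k : ℕ, ({x | 2 * k + 1 ≤ l x} \ {x | 2 * k + 1 + 1 ≤ l x}) := by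
    ext x
    rw [mem_iUnion]
    constructor
    · rintro ⟨k, hk⟩
      refine ⟨k, ?_, ?_⟩
      · show 2 * k + 1 ≤ l x
        omega
      · show ¬ 2 * k + 1 + 1 ≤ l x
        omega
    · rintro ⟨k, h1, h2⟩
      have h1' : 2 * k + 1 ≤ l x := h1
      have h2' : ¬ 2 * k + 1 + 1 ≤ l x := h2
      exact ⟨k, by omega⟩
  rw [e]
  exact MeasurableSet.iUnion fun k => (hk _).diff (hk _)

lemma plat_comp {p : ℝ → ℝ} (pm : Monotone p) {A : Set ℝ} (hA : Dense A)
    (hflat : ∀ y ∈ A, Flat p y) {g : ℝ → ℝ} (hg : Continuous g) (x y : ℝ) (hxy : x < y) :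
    ∃ a b : ℝ, x < a ∧ a < b ∧ b < y ∧ ∀ z ∈ Icc a b, p (g z) = p (g a) := by
  by_cases hcase : ∀ z ∈ Icc (x + (y - x) / 3) (y - (y - x) / 3),
      p (g z) = p (g (x + (y - x) / 3))
  · exact ⟨x + (y - x) / 3, y - (y - x) / 3, by linarith, by linarith, by linarith, hcase⟩
  · push Not at hcase
    obtain ⟨z, hz, hne⟩ := hcase
    set w := x + (y - x) / 3 with hw
    -- two points with different values
    have key : ∀ a b : ℝ, a ∈ Ioo x y → b ∈ Ioo x y → p (g a) < p (g b) →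
        ∃ a b : ℝ, x < a ∧ a < b ∧ b < y ∧ ∀ z ∈ Icc a b, p (g z) = p (g a) := by
      intro a b ha hb hlt
      obtain ⟨y0, hy0, h1, h2⟩ := hA.exists_between hlt
      obtain ⟨a', b', hab', ha', hb'⟩ := hflat y0 hy0
      have hga : g a < a' := by
        by_contra hcon
        have := pm (not_lt.1 hcon)
        rw [ha'] at this
        linarith
      have hgb : b' < g b := by
        by_contra hcon
        have := pm (not_lt.1 hcon)
        rw [hb'] at this
        linarith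
      have hc : (a' + b') / 2 ∈ uIcc (g a) (g b) := by
        rw [uIcc_of_le (by linarith)]
        constructor <;> linarith
      obtain ⟨m, hm, hgm⟩ := intermediate_value_uIcc (hg.continuousOn (s := uIcc a b)) hc
      have hmI : m ∈ Ioo x y := by
        rw [uIcc, mem_Icc] at hm
        constructor
        · exact lt_of_lt_of_le (lt_min ha.1 hb.1) hm.1
        · exact lt_of_le_of_lt hm.2 (max_lt ha.2 hb.2)
      have hnb : g ⁻¹' Ioo a' b' ∩ Ioo x y ∈ 𝓝 m := by
        refine inter_mem ?_ (Ioo_mem_nhds hmI.1 hmI.2)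
        refine hg.continuousAt.preimage_mem_nhds (Ioo_mem_nhds ?_ ?_) <;> rw [hgm] <;> linarith
      obtain ⟨ε, hε, hball⟩ := Metric.mem_nhds_iff.1 hnb
      have hin : ∀ z ∈ Icc (m - ε / 2) (m + ε / 2), p (g z) = y0 ∧ z ∈ Ioo x y := by
        intro z hz
        have : z ∈ g ⁻¹' Ioo a' b' ∩ Ioo x y := by
          refine hball ?_
          rw [Metric.mem_ball, Real.dist_eq, abs_lt]
          constructor <;> linarith [hz.1, hz.2]
        refine ⟨le_antisymm ?_ ?_, this.2⟩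
        · rw [← hb']
          exact pm this.1.2.le
        · rw [← ha']
          exact pm this.1.1.le
      have hl := hin (m - ε / 2) ⟨le_rfl, by linarith⟩
      have hr := hin (m + ε / 2) ⟨by linarith, le_rfl⟩
      exact ⟨m - ε / 2, m + ε / 2, hl.2.1, by linarith, hr.2.2, fun z hz => by
        rw [(hin z hz).1, hl.1]⟩
    have hwI : w ∈ Ioo x y := ⟨by linarith, by linarith⟩
    have hzI : z ∈ Ioo x y := ⟨by linarith [hz.1], by linarith [hz.2]⟩
    rcases lt_or_gt_of_ne hne with h | h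
    · exact key z w hzI hwI h
    · exact key w z hwI hzI h

/-- the set with the given level function and the given collapsing map -/
def MM (l : ℝ → ℕ) (p : ℝ → ℝ) : Set ℝ := p ⁻¹' {x | Odd (l x)}

theorem minimal_of (hcol : S_col) (hlift : S_lift) (hbaf : S_baf) (hquot : S_quot)
    (htrans : S_trans) (hpull : S_pull) {j : ℕ} {l : ℝ → ℕ} (hle : ∀ x, l x ≤ j + 1)
    (hfs : FS l) (htru : TRU l j) (hdl : Dense {x | l x = 0})
    {ι : Type} [LinearOrder ι] [WellFoundedLT ι] {bot : ι} {R : ι → Prop} {e : ι → ℕ}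
    (hb : ∀ a, bot ≤ a)
    (hpres : ∀ (l : ℝ → ℕ) (N' U V : Set ℝ), FS l → (∀ x, l x ≤ 0 + j + 1) → N'.Countable →
      Adm l 0 j N' U V → ∃ (D : ι → Set ℝ) (N : Set ℝ), Pres ι bot R e l 0 N' U V D N)
    {D : ι → Set ℝ} {N Dm : Set ℝ} (hP : Pres ι bot R e l 0 ∅ univ ∅ D N)
    (hG : Gen2 bot R N Dm D) {p : ℝ → ℝ} (pm : Monotone p) (pc : Continuous p)
    (ps : Function.Surjective p) (pf : ∀ y, Flat p y ↔ y ∈ N ∪ Dm) {f : ℝ → ℝ}
    (hf : Continuous f) {s t : ℝ} (hst : p (f s) ≠ p (f t)) :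
    Red (MM l p) (f ⁻¹' MM l p) := by
  -- folding
  set ζ : ℝ → ℝ := fun x => s + (t - s) * ((1 - Real.cos x) / 2) with hζ
  have hζc : Continuous ζ := by fun_prop
  have hζs : ∀ k : ℤ, ζ (k * (2 * Real.pi)) = s := by
    intro k
    simp only [hζ]
    rw [Real.cos_int_mul_two_pi]
    ring
  have hζt : ∀ k : ℤ, ζ (k * (2 * Real.pi) + Real.pi) = t := by
    intro k
    simp only [hζ]
    rw [Real.cos_int_mul_two_pi_add_pi]
    ring
  set φ : ℝ → ℝ := fun x => p (f (ζ x)) with hφ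
  have hφc : Continuous φ := pc.comp (hf.comp hζc)
  have hdA : Dense (N ∪ Dm) := hG.denseD.mono subset_union_right
  have hplat := plat_comp pm hdA (fun y hy => (pf y).2 hy) (hf.comp hζc)
  have hpi : (0 : ℝ) < Real.pi := Real.pi_pos
  have hunb : ∀ r : ℝ, (∃ x y, r < x ∧ r < y ∧ φ x ≠ φ y) ∧ ∃ x y, x < r ∧ y < r ∧ φ x ≠ φ y := by
    intro r
    constructor
    · obtain ⟨k, hk⟩ := exists_nat_gt (r / (2 * Real.pi))
      rw [div_lt_iff₀ (by positivity)] at hk
      refine ⟨((k : ℤ) : ℝ) * (2 * Real.pi), ((k : ℤ) : ℝ) * (2 * Real.pi) + Real.pi, ?_, ?_, ?_⟩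
      · push_cast; linarith
      · push_cast; linarith
      · simp only [hφ]
        rw [hζs, hζt]
        exact hst
    · obtain ⟨k, hk⟩ := exists_nat_gt (-(r - Real.pi) / (2 * Real.pi))
      rw [div_lt_iff₀ (by positivity)] at hk
      refine ⟨((-(k : ℤ) : ℤ) : ℝ) * (2 * Real.pi),
        ((-(k : ℤ) : ℤ) : ℝ) * (2 * Real.pi) + Real.pi, ?_, ?_, ?_⟩
      · push_cast; linarith
      · push_cast; linarith
      · simp only [hφ]
        rw [hζs, hζt]
        exact hst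
  obtain ⟨q, ψ, qm, qc, qs, ψc, hqψ, hψn, hqf⟩ := hquot hcol φ hφc hplat hunb
  -- the level function on the quotient line
  have hfs' : FS (fun x => l (ψ x)) := fs_comp hfs ψc
  have hTR : TR (fun x => l (ψ x)) j {y | Flat q y} := by
    intro u v huv
    obtain ⟨z, h1, h2, h3⟩ := hψn u v huv
    obtain ⟨P, g1, g2, g3⟩ := hpull htrans l j ψ htru ψc u z h1 (Ne.symm h3) _ hqf
    exact ⟨P, g1.trans (Ioo_subset_Ioo_right h2.le), g2, g3⟩
  have hd' : Dense {x | l (ψ x) = 0} := by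
    refine dense_of_exists_between fun u v huv => ?_
    obtain ⟨z, h1, h2, h3⟩ := hψn u v huv
    have key : ∀ y : ℝ, y ∈ uIcc (ψ u) (ψ z) → y ≠ ψ u → y ≠ ψ z → ∃ w, ψ w = y ∧ u < w ∧ w < v := by
      intro y hy hy1 hy2
      obtain ⟨w, hw, rfl⟩ := intermediate_value_uIcc (ψc.continuousOn (s := uIcc u z)) hy
      rw [uIcc_of_le h1.le] at hw
      refine ⟨w, rfl, lt_of_le_of_ne hw.1 ?_, lt_of_le_of_lt hw.2 h2⟩
      rintro rfl
      exact hy1 rfl
    rcases lt_or_gt_of_ne h3 with h | h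
    · obtain ⟨y, hy, hy1, hy2⟩ := hdl.exists_between h
      obtain ⟨w, hw, hw1, hw2⟩ := key y (by rw [uIcc_of_ge h.le]; exact ⟨hy1.le, hy2.le⟩)
        hy2.ne hy1.ne'
      exact ⟨w, by rw [mem_ofPred_eq, hw]; exact hy, hw1, hw2⟩
    · obtain ⟨y, hy, hy1, hy2⟩ := hdl.exists_between h
      obtain ⟨w, hw, hw1, hw2⟩ := key y (by rw [uIcc_of_le h.le]; exact ⟨hy1.le, hy2.le⟩)
        hy1.ne' hy2.ne
      exact ⟨w, by rw [mem_ofPred_eq, hw]; exact hy, hw1, hw2⟩
  obtain ⟨D', N2, hP'⟩ := hpres (fun x => l (ψ x)) {y | Flat q y} univ ∅ hfs'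
    (fun x => by have := hle (ψ x); omega) hqf (adm0 hTR hd')
  obtain ⟨T, t1, t2, t3⟩ := hd'.exists_countable_dense_subset
  have hG' : Gen2 bot R N2 (({y | Flat q y} ∩ {y | l (ψ y) = 0}) ∪ T) D' :=
    gen2_of_pres hb hTR hP' ((hqf.mono inter_subset_left).union t2)
      (t3.mono subset_union_right) (fun x hx => hx.elim (fun h => h.2) fun h => t1 h)
  obtain ⟨Φ, f1, f2, f3⟩ := BF2.iso2 hbaf hG hG'
  have hflat : ∀ y, Flat q y → Flat (fun x => Φ (p x)) y := by
    intro y hy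
    have key : Flat p (Φ.symm y) := by
      rw [pf]
      by_cases hy0 : l (ψ y) = 0
      · right
        rw [f3, OrderIso.apply_symm_apply]
        exact Or.inl ⟨hy, hy0⟩
      · left
        rw [f2, OrderIso.apply_symm_apply]
        refine hP'.supN ⟨hy, ?_, mem_univ _, notMem_empty _⟩
        show 0 + 1 ≤ l (ψ y)
        omega
    obtain ⟨a, b, hab, ha, hb⟩ := key
    refine ⟨a, b, hab, ?_, ?_⟩
    · show Φ (p a) = y
      rw [ha, OrderIso.apply_symm_apply]
    · show Φ (p b) = y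
      rw [hb, OrderIso.apply_symm_apply]
  obtain ⟨g, hgc, hg⟩ := hlift (fun x => Φ (p x)) q (fun x y h => Φ.monotone (pm h))
    (Φ.continuous.comp pc) (Φ.surjective.comp ps) qm qc qs hflat
  refine ⟨fun x => ζ (g x), hζc.comp hgc, ?_⟩
  ext x
  show Odd (l (p x)) ↔ Odd (l (p (f (ζ (g x)))))
  have e1 : p (f (ζ (g x))) = ψ (Φ (p x)) := by
    have := hqψ (g x)
    rw [hg x] at this
    exact this
  have e2 := lev_eq hP hP' Φ f1 (p x)
  rw [e1]
  have e3 : l (ψ (Φ (p x))) = l (p x) := e2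
  rw [e3]

theorem exists_minimal (hcol : S_col) (hlift : S_lift) (hbaf : S_baf) (hplat : S_plat)
    (hquot : S_quot) (htrans : S_trans) (hpull : S_pull)
    (hT : ∀ j : ℕ, ∃ l : ℝ → ℕ, (∀ x, l x ≤ j + 1) ∧ Dense {x | l x = 0} ∧ FS l ∧ TRU l j)
    (hpres : ∀ j i, PresAt j i) (j : ℕ) :
    ∃ (l : ℝ → ℕ) (p : ℝ → ℝ), (∀ x, l x ≤ j + 1) ∧ FS l ∧ TRU l j ∧ Monotone p ∧ Continuous p ∧
      Function.Surjective p ∧ MinimalBorel (MM l p) := by
  obtain ⟨l, hle, hdl, hfs, htru⟩ := hT j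
  obtain ⟨ι, lin, wf, bot, R, e, hb, -, hpr⟩ := hpres j 0
  have hTR : TR l j ∅ := by
    intro u v huv
    obtain ⟨C, hC, -, hC2⟩ := htru u v huv
    have : C.Nonempty := by
      by_contra hne
      rw [not_nonempty_iff_eq_empty] at hne
      exact hC (by rw [hne]; exact countable_empty)
    obtain ⟨P, hP⟩ := this
    exact ⟨P, (hC2 P hP).1, (hC2 P hP).2, fun x _ => notMem_empty x⟩
  obtain ⟨D, N, hP⟩ := hpr l ∅ univ ∅ hfs (fun x => by have := hle x; omega) countable_empty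
    (adm0 hTR hdl)
  obtain ⟨Dm, d1, d2, d3⟩ := hdl.exists_countable_dense_subset
  have hG : Gen2 bot R N Dm D := gen2_of_pres hb hTR hP d2 d3 fun x hx => d1 hx
  obtain ⟨p, pm, pc, ps, pf⟩ := hplat (N ∪ Dm) (hG.countN.union hG.countD)
  have hd1 : Dense {x | l x = 1} := by
    refine dense_of_exists_between fun u v huv => ?_
    obtain ⟨P, h1, h2, -⟩ := hTR u v huv
    obtain ⟨-, ⟨x, hx⟩, -, M, -, hM1, hM2, hM3⟩ := h2.core
    have hne : M.Nonempty := by
      by_contra hne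
      rw [not_nonempty_iff_eq_empty] at hne
      have := hM3 hx
      rw [hne, closure_empty] at this
      exact this
    obtain ⟨y, hy⟩ := hne
    exact ⟨y, (hM2 y hy).1, (h1 (hM1 hy)).1, (h1 (hM1 hy)).2⟩
  refine ⟨l, p, hle, hfs, htru, pm, pc, ps, ?_, ?_, ?_, ?_⟩
  · exact pc.measurable (fs_meas hfs)
  · refine not_open pm pc ps ?_ (hdl.mono ?_)
    · obtain ⟨x, hx⟩ := hd1.nonempty
      refine ⟨x, ?_⟩
      show Odd (l x)
      rw [show l x = 1 from hx]
      exact odd_one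
    · intro x hx h
      have h' : Odd (l x) := h
      rw [show l x = 0 from hx] at h'
      exact absurd h' (by decide)
  · intro hcl
    have ho : IsOpen (p ⁻¹' {x | Odd (l x)}ᶜ) := by
      rw [preimage_compl]
      exact hcl.isOpen_compl
    refine not_open pm pc ps ?_ ?_ ho
    · obtain ⟨x, hx⟩ := hdl.nonempty
      refine ⟨x, fun h => ?_⟩
      have h' : Odd (l x) := h
      rw [show l x = 0 from hx] at h'
      exact absurd h' (by decide)
    · rw [compl_compl]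
      refine hd1.mono fun x hx => ?_
      show Odd (l x)
      rw [show l x = 1 from hx]
      exact odd_one
  · rintro B - hBo - ⟨f, hf, rfl⟩
    by_cases hc : ∀ s t, p (f s) = p (f t)
    · exfalso
      apply hBo
      by_cases h0 : f 0 ∈ MM l p
      · have : f ⁻¹' MM l p = univ := by
          ext x
          simp only [mem_univ, iff_true]
          show Odd (l (p (f x)))
          rw [hc x 0]
          exact h0
        rw [this]
        exact isOpen_univ
      · have : f ⁻¹' MM l p = ∅ := by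
          ext x
          simp only [mem_empty_iff_false, iff_false]
          intro hx
          have hx' : Odd (l (p (f x))) := hx
          rw [hc x 0] at hx'
          exact h0 hx'
        rw [this]
        exact isOpen_empty
    · push Not at hc
      obtain ⟨s, t, hst⟩ := hc
      exact minimal_of hcol hlift hbaf hquot htrans hpull hle hfs htru hdl hb
        (fun l N' U V => hpr l N' U V) hP hG pm pc ps pf hf hst

theorem final (hcol : S_col) (hlift : S_lift) (hbaf : S_baf) (hplat : S_plat)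
    (hquot : S_quot) (htrans : S_trans) (hpull : S_pull) (hlow : S_low)
    (hT : ∀ j : ℕ, ∃ l : ℝ → ℕ, (∀ x, l x ≤ j + 1) ∧ Dense {x | l x = 0} ∧ FS l ∧ TRU l j)
    (hpres : ∀ j i, PresAt j i) :
    ∃ A : ℕ → Set ℝ, (∀ n, MinimalBorel (A n)) ∧ ∀ m n, m ≠ n → ¬ Red (A m) (A n) := by
  choose l p hle hfs htru pm pc ps hmin using
    exists_minimal hcol hlift hbaf hplat hquot htrans hpull hT hpres
  have key : ∀ m n, n < m → ¬ Red (MM (l m) (p m)) (MM (l n) (p n)) := by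
    rintro m n hnm ⟨f, hf, hfe⟩
    obtain ⟨s, hs⟩ := ps m 0
    obtain ⟨t, ht⟩ := ps m 1
    have hst : s < t := by
      by_contra hcon
      have := pm m (not_lt.1 hcon)
      rw [hs, ht] at this
      linarith
    obtain ⟨P, -, hP, -⟩ := hpull htrans (l m) m (p m) (htru m) (pc m) s t hst
      (by rw [hs, ht]; exact zero_ne_one) ∅ countable_empty
    obtain ⟨x, hx⟩ := hlow (fun x => l m (p m x)) (fun x => l n (p n (f x)))
      (fs_comp (hfs m) (pc m)) (fs_comp (hfs n) ((pc n).comp hf)) (fun x => by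
        have : x ∈ MM (l m) (p m) ↔ x ∈ f ⁻¹' MM (l n) (p n) := by rw [← hfe]
        exact this) m 1 P hP (fun x _ => by omega)
    have := hle n (p n (f x))
    omega
  refine ⟨fun n => MM (l n) (p n), hmin, fun m n hmn h => ?_⟩
  rcases lt_or_gt_of_ne hmn with hlt | hlt
  · have := (hmin n).2.2.2 _ (hmin m).1 (hmin m).2.1 (hmin m).2.2.1 h
    exact key n m hlt this
  · exact key m n hlt h

end Pool.Agent.Q215.MB
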