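import Pool.Agent.Q215.MB.Defs
import Pool.Agent.Q215.WR.Stm

/-!
Statements of the lemmas for the theorem on minimal Borel sets, with proofs in words.
The following notions are from `Pool/Agent/Q215/WR/Stm.lean`: `Two M x` (limit point of `M` from both
sides), `Lim M x` (limit point), `Flat q y`, `S_col`, `S_lift`, `S_plat`.
-/

set_option autoImplicit false

open Set Topology Filter

namespace Pool.Agent.Q215.MB

open Pool.Agent.Q215.WR (Two Lim Flat S_col)

/-- the basic part of the definition of a piece of level `i` -/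
def Core (l : ℝ → ℕ) (i : ℕ) (P : Set ℝ) : Prop :=
  IsCompact P ∧ P.Nonempty ∧ (∀ x ∈ P, i ≤ l x) ∧
    ∃ M : Set ℝ, M.Countable ∧ M ⊆ P ∧ (∀ x ∈ M, l x = i ∧ Two M x) ∧ P ⊆ closure M

/-- pieces of level `i` and depth `j` for the level function `l` -/
def Pc (l : ℝ → ℕ) : ℕ → ℕ → Set ℝ → Prop
  | 0, i, P => Core l i P
  | j + 1, i, P => Core l i P ∧ (∀ x ∈ P, i + 1 ≤ l x → Two P x) ∧
      ∀ u v : ℝ, (P ∩ Ioo u v).Nonempty → ∃ Q : Set ℝ, Q ⊆ P ∩ Ioo u v ∧ Pc l j (i + 1) Q

/-- the sets `{x | k ≤ l x}` are countable unions of closed sets -/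
def FS (l : ℝ → ℕ) : Prop :=
  ∀ k : ℕ, ∃ H : ℕ → Set ℝ, (∀ m, IsClosed (H m)) ∧ (⋃ m, H m) = {x | k ≤ l x}

/-- admissible pairs `(U, V)` -/
structure Adm (l : ℝ → ℕ) (i j : ℕ) (N' U V : Set ℝ) : Prop where
  closedU : IsClosed U
  closedV : IsClosed V
  sub : V ⊆ U
  twoV : ∀ x ∈ V, Two (U \ V) x
  twoU : ∀ x ∈ U \ V, i + 1 ≤ l x → Two (U \ V) x
  piece : ∀ u v : ℝ, ((U \ V) ∩ Ioo u v).Nonempty →
    ∃ Q : Set ℝ, Q ⊆ (U \ V) ∩ Ioo u v ∧ Pc l j (i + 1) Q ∧ ∀ x ∈ Q, x ∉ N'
  low : ∀ u v : ℝ, ((U \ V) ∩ Ioo u v).Nonempty → ∃ y ∈ (U \ V) ∩ Ioo u v, l y ≤ i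
  unb : ∀ r : ℝ, (∃ x ∈ U \ V, r < x) ∧ ∃ x ∈ U \ V, x < r

/-- **S_stepr**. Compare `S_step` in `Pool/Agent/Q215/WR/Stm.lean` (proved in
`Pool/Agent/Q214/WR/StepP.lean`); the construction is the same with overlapping intervals.
For a natural number `n ≥ 1` and an integer `k` call `(n, k)` good if
`[(k - 1) / 2 ^ n, (k + 2) / 2 ^ n]` is disjoint from `H` and `[(k - 5) / 2 ^ n, (k + 6) / 2 ^ n]`
meets `H`; call `(0, k)` good if `[k - 1, k + 2]` is disjoint from `H`. Put
`J (n, k) = ((k - 1/4) / 2 ^ n, (k + 5/4) / 2 ^ n)`. (i) Every `y ∉ H` is in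
`[k / 2 ^ n, (k + 1) / 2 ^ n]` for some good `(n, k)`: take the least `n` such that, with
`k = ⌊y * 2 ^ n⌋`, `[(k - 1) / 2 ^ n, (k + 2) / 2 ^ n]` is disjoint from `H` (it exists as `H` is
closed). (ii) Near a point `x ∉ H` only finitely many `J (n, k)` with `(n, k)` good occur (as in
`S_step`). For good `(n, k)` with `(U \ V) ∩ J (n, k)` nonempty choose by `piece` a set
`Q (n, k) ⊆ (U \ V) ∩ J (n, k)`, with its countable set `M (n, k)` from `Core`. Let `F` be the union
of `H` and all `Q (n, k)`, `M` the union of all `M (n, k)`. `F` is closed by (ii) and compactness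
of the `Q (n, k)`. `J (n, k)` is disjoint from `H`, so `F \ H` is the union of the `Q (n, k)`.
`Two M x` for `x ∈ M`, `F \ H ⊆ closure M`, `l x = i + 1` on `M`, and `F \ H` misses `N'`: clear.
`Two M x` for `x ∈ H`: first, `Two (U \ V) x` (by `twoV` if `x ∈ V`, otherwise by `twoU`, since then
`i + 1 ≤ l x`). Given `ε > 0` there is `y0 ∈ U \ V` with `x < y0 < x + ε`, and by `low` (interval
`(x, x + ε)`) there is `y1 ∈ U \ V` with `x < y1 < x + ε`, `l y1 ≤ i`, so `y1 ∉ H`. Let
`u = sSup (H ∩ [x, y1]) ∈ H`, `u < y1`, `(u, y1]` disjoint from `H`. By `Two (U \ V) u` (as above)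
there is `y ∈ U \ V` with `u < y < u + (y1 - u) / 4`, and `y ∉ H`. Take good `(n, k)` with
`y ∈ [k / 2 ^ n, (k + 1) / 2 ^ n]`; as `[(k - 1) / 2 ^ n, (k + 2) / 2 ^ n]` misses `u < y`,
`1 / 2 ^ n ≤ y - u`; so `J (n, k)` (an interval containing `y`, disjoint from `H`) is contained in
`(u, y + 2 * (y - u))`, inside `(x, x + ε)`, and `U \ V` meets it; so `M (n, k)` gives the point.
The left side is symmetric. `M` is unbounded above: given `r`, there is `x0 ∈ U \ V` with
`x0 > r + 3`, so by `low` a point `y ∈ U \ V`, `y > r + 3`, `l y ≤ i`, `y ∉ H`; with good `(n, k)`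
for `y`, `J (n, k) ⊆ (y - 2, y + 2)`. Same below.
Last part (`j = j' + 1`): if `x ∈ F \ H`, `i + 2 ≤ l x`, then `x ∈ Q (n, k)`, so `Two (Q (n, k)) x`.
`Adm l (i + 1) j' N' F V'`: `twoV`: `V' ⊆ H`, `Two M x`, `M ⊆ F \ V'`. `twoU`: `x ∈ H`: `Two M x`;
`x ∈ F \ H`: just proved. `piece`: if `(F \ V') ∩ Ioo u v` contains a point of `F \ H`, it is in
some `Q (n, k)`, which has a subpiece in `Ioo u v`; if it contains a point `x ∈ H`, then `Two M x`
gives a point of `F \ H` in `Ioo u v`. `low`: points of `M` have `l x = i + 1` and are dense in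
`F \ H`. -/
def S_stepr : Prop :=
  ∀ (l : ℝ → ℕ) (i j : ℕ) (N' U V : Set ℝ), Adm l i j N' U V → ∀ H : Set ℝ, IsClosed H → V ⊆ H →
    H ⊆ V ∪ ({x | i + 1 ≤ l x} ∩ U) → ∃ F M : Set ℝ, IsClosed F ∧ H ⊆ F ∧
      F ⊆ V ∪ ({x | i + 1 ≤ l x} ∩ U) ∧ M.Countable ∧ M ⊆ F \ H ∧ (∀ x ∈ M, l x = i + 1) ∧
      (∀ x ∈ M, Two M x) ∧ (∀ x ∈ H, Two M x) ∧ F \ H ⊆ closure M ∧ (∀ x ∈ F \ H, x ∉ N') ∧
      (∀ r : ℝ, (∃ x ∈ M, r < x) ∧ ∃ x ∈ M, x < r) ∧
      ∀ j', j = j' + 1 → (∀ x ∈ F \ H, i + 2 ≤ l x → Two (F \ H) x) ∧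
        ∀ V' : Set ℝ, IsClosed V' → V' ⊆ H → Adm l (i + 1) j' N' F V'

/-- the points of `D a` which are in no earlier set -/
def Lay {ι : Type} [LinearOrder ι] (D : ι → Set ℝ) (a : ι) : Set ℝ :=
  {x | x ∈ D a ∧ ∀ b, b < a → x ∉ D b}

/-- generic presentations of the set `{x | i + 1 ≤ l x} ∩ (U \ V)` -/
structure Pres (ι : Type) [LinearOrder ι] (bot : ι) (R : ι → Prop) (e : ι → ℕ) (l : ℝ → ℕ) (i : ℕ)
    (N' U V : Set ℝ) (D : ι → Set ℝ) (N : Set ℝ) : Prop where
  bot_eq : D bot = V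
  closed : ∀ a, IsClosed (D a)
  mono : ∀ a b, a ≤ b → D a ⊆ D b
  closedlt : ∀ a, a ≠ bot → R a → IsClosed {x | ∃ b, b < a ∧ x ∈ D b}
  lims : ∀ a, a ≠ bot → ¬ R a → D a ⊆ closure {x | ∃ b, b < a ∧ x ∈ D b}
  union : (⋃ a, D a) = V ∪ ({x | i + 1 ≤ l x} ∩ U)
  lev : ∀ a, a ≠ bot → ∀ x ∈ Lay D a, l x = e a
  countN : N.Countable
  subN : N ⊆ {x | i + 1 ≤ l x} ∩ (U \ V)
  supN : N' ∩ ({x | i + 1 ≤ l x} ∩ (U \ V)) ⊆ N
  lim : ∀ a, a ≠ bot → R a → ∀ x ∈ D a, Lim (N ∩ Lay D a) x
  two : ∀ a b, b < a → ∀ x ∈ D b, Two (N ∩ Lay D a) x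
  twoN : ∀ a, a ≠ bot → ∀ x ∈ N ∩ Lay D a, Two (D a) x
  unb : ∀ a, a ≠ bot → ∀ r : ℝ, (∃ x ∈ N ∩ Lay D a, r < x) ∧ ∃ x ∈ N ∩ Lay D a, x < r

/-- existence of generic presentations for depth `j` and level `i`, with a fixed index set -/
def PresAt (j i : ℕ) : Prop :=
  ∃ (ι : Type) (_ : LinearOrder ι) (_ : WellFoundedLT ι) (bot : ι) (R : ι → Prop) (e : ι → ℕ),
    (∀ a, bot ≤ a) ∧ (∃ a, a ≠ bot) ∧
    ∀ (l : ℝ → ℕ) (N' U V : Set ℝ), FS l → (∀ x, l x ≤ i + j + 1) → N'.Countable →
      Adm l i j N' U V → ∃ (D : ι → Set ℝ) (N : Set ℝ), Pres ι bot R e l i N' U V D N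

/-- **S_pres0**. Index set `ℕ`, `bot = 0`, `R` always true, `e = i + 1` constant. Let `H m` be closed
with union `{x | i + 1 ≤ l x}` (`FS`). By recursion with `S_stepr`: `(F 0, M 0)` for
`V ∪ (H 0 ∩ U)`, `(F (m+1), M (m+1))` for `F m ∪ (H (m+1) ∩ U)`. `D 0 = V`, `D (m + 1) = F m`,
`N = (N' ∩ ({x | i + 1 ≤ l x} ∩ (U \ V))) ∪ ⋃ M m`. As in `S_gen` of
`Pool/Agent/Q215/WR/Stm.lean`, proved in `Pool/Agent/Q215/WR/Gen.lean`: `M m ⊆ Lay D (m + 1)`;
`two`: `x ∈ D b`, `b < m + 1`, is in the closed set used at stage `m`. `lim` for `a = m + 1`: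
`x ∈ F m` is in the set `H'` used at stage `m` (then `Two (M m) x`) or in `F m \ H' ⊆ closure (M m)`
(then it is a limit point of `M m`, also if it is in `M m`, by `Two`). `twoN`: `x ∈ N'`: `x` is in
`H'` as `F m \ H'` misses `N'`; `x ∈ M k`: then `k = m`. `lev`: `i + 1 ≤ l x ≤ i + 0 + 1`. `N` is
contained in `U \ V`: `M m` is disjoint from the set used at stage `m`, which contains `V`. -/
def S_pres0 : Prop := S_stepr → ∀ i, PresAt 0 i

/-- **S_presS**. Let `(κ, bot, R, e)` be the index data of `PresAt j (i + 1)`. The new index set is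
`ℕ ×ₗ κ` (lexicographic product), with bottom `(0, bot)`,
`R' (k, b)` iff `(b = bot and k = 0) or (b ≠ bot and R b)`, `e' (k, b) = i + 1` if `b = bot`, and
`e b` otherwise. Let `H m` be closed with union `{x | i + 1 ≤ l x}`. By recursion with `S_stepr`
(for `(U, V)`, level `i`, depth `j + 1`): `(F 0, M 0)` for `V ∪ (H 0 ∩ U)`, `(F (m+1), M (m+1))` for
`F m ∪ (H (m+1) ∩ U)`; put `F (-1) = V`, and let `E m` be the set used at stage `m`
(`F (m - 1) ⊆ E m ⊆ F m`). By the last part of `S_stepr` the pair `(F m, F (m - 1))` is admissible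
for level `i + 1`, depth `j`. So there are `D^m : κ → Set ℝ` and `N^m` with
`Pres κ bot R e l (i + 1) N' (F m) (F (m - 1)) (D^m) (N^m)`. Put `D (k, b) = D^k b` and
`N = (N' ∩ ({x | i + 1 ≤ l x} ∩ (U \ V))) ∪ ⋃ M m ∪ ⋃ N^m` (or only the points with `l x = i + 1` in the first set).
Write `S = {x | i + 2 ≤ l x}`. Facts: `D (k, bot) = F (k - 1)`; all `D (k, b)` are between
`F (k - 1)` and `F (k - 1) ∪ (S ∩ F k) ⊆ F k`, and the union over `b` is `F (k - 1) ∪ (S ∩ F k)`;
so `mono`, `union` (`⋃ F m = V ∪ ({x | i + 1 ≤ l x} ∩ U)`).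
`Lay D (k, b) = Lay (D^k) b` for `b ≠ bot`;
`Lay D (k, bot) = (F (k-1) \ F (k-2)) \ S` for `k ≥ 1`: here `l x = i + 1`. `closedlt` for `(k, b)`,
`b ≠ bot`: the set is `{x | ∃ c < b, x ∈ D^k c}`. `lims`: for `b ≠ bot` from `D^k`; for `(k, bot)`,
`k ≥ 1`: a point of `F (k - 1)` is in `F (k - 2)` or, by `piece` of the admissible pair
`(F (k-1), F (k-2))`, a limit of points of `S ∩ F (k - 1)` (pieces of level `i + 2`).
`lim`: only for `b ≠ bot`, from `D^k` (a point of `N ∩ Lay` is what is needed; `N^k ⊆ N`).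
`two` for `(k', b') < (k, b)`, `x ∈ D (k', b')`: if `b ≠ bot`: `x` is in `D^k bot = F (k - 1)` (if
`k' < k`) or in `D^k b'`, use `two` of `D^k`. If `b = bot`: `M (k - 1) ⊆ N ∩ Lay D (k, bot)` and
`k' ≤ k - 1`; if `x ∈ E (k - 1)` then `Two (M (k - 1)) x`; otherwise `k' = k - 1` and
`x ∈ S ∩ (F (k - 1) \ E (k - 1))`, so `Two (F (k-1) \ E (k-1)) x` by the last part of `S_stepr`,
and `F (k-1) \ E (k-1) ⊆ closure (M (k-1))` gives `Two (M (k - 1)) x`.
`twoN`: let `x ∈ N ∩ Lay D (k, b)`. If `b ≠ bot`: `l x ≥ i + 2`, so `x` is in some `N^m` or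
in `N'`; in both cases `x ∈ N^k` (`N^m ⊆ F m \ F (m - 1)` and `x ∈ F k \ F (k - 1)`; `supN` of
`D^k` for `x ∈ N'`), so `Two (D^k b) x`. If `b = bot`, `k ≥ 1`: `x ∈ F (k-1) \ F (k-2)` and
`l x = i + 1`, so `x ∈ M m` (then `m = k - 1`, `Two (M (k - 1)) x`) or `x ∈ N'` (then
`x ∈ E (k - 1)`, `Two (M (k - 1)) x`); and `M (k - 1) ⊆ F (k - 1)`. `unb`: from `D^k` or from
`M (k - 1)`. -/
def S_presS : Prop := S_stepr → ∀ j i, PresAt j (i + 1) → PresAt (j + 1) i

/-- uncountably many disjoint pieces of level 1 in every interval -/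
def TRU (l : ℝ → ℕ) (j : ℕ) : Prop :=
  ∀ u v : ℝ, u < v → ∃ C : Set (Set ℝ), ¬ C.Countable ∧ C.PairwiseDisjoint id ∧
    ∀ P ∈ C, P ⊆ Ioo u v ∧ Pc l j 1 P

/-- **S_trans** (transport of pieces). Induction on `j`. Images of compact sets under `τ`
(continuous at the points of `P`) are compact; if `z ∈ M` tends to `y ∈ P` from the left, `τ z`
tends to `τ y` from one side, strictly (and from the other side for the other side). For the last
condition of `Pc`: if `τ y ∈ Ioo u v`, `y ∈ P`, there is `δ > 0` such that `τ` maps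
`P ∩ Ioo (y - δ) (y + δ)` into `Ioo u v`; take a subpiece there. -/
def S_trans : Prop :=
  ∀ (l l' : ℝ → ℕ) (τ : ℝ → ℝ) (j i : ℕ) (P : Set ℝ),
    (StrictMonoOn τ P ∨ StrictAntiOn τ P) → ContinuousOn τ P → (∀ x ∈ P, l' (τ x) = l x) →
      Pc l j i P → Pc l' j i (τ '' P)

/-- **S_pull**. Case `φ s < φ t`. For `y ∈ [φ s, φ t]` let `τ y` be the least `x ∈ [s, t]` with
`y ≤ φ x` (`sInf`); then `φ (τ y) = y`, `τ` is strictly increasing on `[φ s, φ t]` (extend it to a
monotone function on the line, e.g. `τ y = sInf {x ∈ [s, t] | min y (φ t) ≤ φ x}`), so it has only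
countably many points of discontinuity (`Monotone.countable_not_continuousAt`). The countable set
of these points together with `φ '' N'` meets only countably many members of the family of disjoint
pieces given by `TRU l j` for the interval `(φ s, φ t)`, so some piece `P` in `(φ s, φ t)` misses it.
Then `τ '' P` is a piece for `l ∘ φ` by `S_trans`, it is contained in `(s, t)` and misses `N'`.
Case `φ s > φ t`: apply the first case to `x ↦ φ (-x)` on `[-t, -s]` and reflect (`S_trans` for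
`x ↦ -x`). -/
def S_pull : Prop :=
  S_trans → ∀ (l : ℝ → ℕ) (j : ℕ) (φ : ℝ → ℝ), TRU l j → Continuous φ → ∀ s t : ℝ, s < t →
    φ s ≠ φ t → ∀ N' : Set ℝ, N'.Countable →
      ∃ P : Set ℝ, P ⊆ Ioo s t ∧ Pc (fun x => l (φ x)) j 1 P ∧ ∀ x ∈ P, x ∉ N'

/-- **S_quot**. Let `K` be the set of all `x` such that `φ` is not constant on any neighbourhood
of `x`. `K` is closed, has empty interior (first hypothesis), is unbounded on both sides (second
hypothesis: if `K` misses `(r, ∞)` then `φ` is locally constant, so constant, there), and has no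
isolated points (if `φ` is locally constant on `(x - ε, x)` and on `(x, x + ε)`, it is constant on
both, with value `φ x` by continuity). Let `q` be the function of `S_col`: `q x = q y` iff no point
of `K` is strictly between, iff `φ` is constant on `[x, y]`. So `φ = ψ ∘ q` for a function `ψ`,
which is continuous because `q` is a quotient map (a monotone continuous surjection of the line:
closed sets `ψ ⁻¹' A` : its preimage under `q` is closed; images under `q` of compact sets are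
compact). `ψ` is not constant on any interval: `(x, y)` with preimage `(x', y')`, `q x' < q y'` for
suitable `x' < y'`, contains a point of `K`. The values `y` with `Flat q y` are countably many (a
rational point in each fibre). -/
def S_quot : Prop :=
  S_col → ∀ φ : ℝ → ℝ, Continuous φ →
    (∀ x y : ℝ, x < y → ∃ a b : ℝ, x < a ∧ a < b ∧ b < y ∧ ∀ z ∈ Icc a b, φ z = φ a) →
    (∀ r : ℝ, (∃ x y, r < x ∧ r < y ∧ φ x ≠ φ y) ∧ ∃ x y, x < r ∧ y < r ∧ φ x ≠ φ y) →
    ∃ q ψ : ℝ → ℝ, Monotone q ∧ Continuous q ∧ Function.Surjective q ∧ Continuous ψ ∧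
      (∀ x, φ x = ψ (q x)) ∧ (∀ x y, x < y → ∃ z, x < z ∧ z < y ∧ ψ z ≠ ψ x) ∧
      {y | Flat q y}.Countable

/-- **S_low**. Induction on `j`. `P` is a compact metrizable space, so a Baire space. The set
`{x ∈ P | l x ≤ i}` contains the dense set `M` of `Core`, and its complement in `P` is the countable
union of the closed sets `P ∩ H m` (`FS l` for `k = i + 1`), which have empty interior in `P` (they
miss `M`). So `{x ∈ P | l x = i}` is comeager in `P`. There `l' x` has the parity of `i` and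
`i ≤ l' x + 1`, so `i ≤ l' x`. So the countable union of the closed sets `P ∩ H' m` (`FS l'` for
`k = i`) is comeager in `P`; by the Baire category theorem one of them has nonempty interior in
`P`: there are `u v` with `P ∩ Ioo u v` nonempty and contained in `{x | i ≤ l' x}`. If `j = 0` take
a point of it. If `j = j' + 1` take a piece `Q ⊆ P ∩ Ioo u v` of level `i + 1` and depth `j'` and
use the induction hypothesis (`i + 1 ≤ l' x + 1` on `Q`). -/
def S_low : Prop :=
  ∀ (l l' : ℝ → ℕ), FS l → FS l' → (∀ x, Odd (l x) ↔ Odd (l' x)) → ∀ (j i : ℕ) (P : Set ℝ),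
    Pc l j i P → (∀ x ∈ P, i ≤ l' x + 1) → ∃ x, i + j ≤ l' x

/-- the conclusion of `S_Ta` -/
def C_Ta : Prop :=
  ∀ j : ℕ, ∃ (C : Set ℝ) (l : ℝ → ℕ), IsCompact C ∧ C ⊆ Ioo (-1) 1 ∧ interior C = ∅ ∧
    (∀ x ∈ C, 1 ≤ l x) ∧ (∀ x, x ∉ C → l x = 0) ∧ (∀ x, l x ≤ j + 1) ∧ FS l ∧
    ∃ A : Set (Set ℝ), ¬ A.Countable ∧ A.PairwiseDisjoint id ∧ ∀ P ∈ A, P ⊆ C ∧ Pc l j 1 P

/-- **S_Ta** (the basic structure). Let `X = ℕ → Fin 3` (or functions `ℕ → ℕ` with values `≤ 2`) and
`c x = ∑ x k / 4 ^ (k + 1)`. `c` is continuous and strictly increasing for the lexicographic order: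
if `x`, `y` differ first at `k` and `x k < y k`, then `c x < c y`. Values in `[0, 2/3]`. Let
`C = c '' X` (compact; interior empty: totally disconnected, or it has measure zero, or: next to
every point `c x` there are points not in `C`). Column `r` consists of the positions
`Nat.pair r m`, `m ∈ ℕ`. For `s ≥ 1` say that `x` is good at `s` if `x k = 1` for all but finitely
many positions `k` of column `s + 1`. For `1 ≤ i ≤ j + 1` let `S i` be the set of the `c x` such
that `x` is good at all `s` with `1 ≤ s < i` (so `S 1 = C`); `l y` is the number of `i` in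
`[1, j + 1]` with `y ∈ S i`. Then `k ≤ l y` iff `y ∈ S k` for `1 ≤ k ≤ j + 1`. `S k` is the union
over `K` of the compact images of the closed sets of all `x` with `x p = 1` for the positions
`p ≥ K` of the columns `s + 1`, `1 ≤ s < k`. Pieces: for `1 ≤ i ≤ j + 1`, `w ∈ X`, `K ∈ ℕ` let
`P (i, w, K)` be the image of the set of all `x` with `x p = w p` for `p < K` and for all `p` in
column `0`, and `x p = 1` for the positions `p ≥ K` in the columns `s + 1`, `1 ≤ s < i`. Claim:
`Pc l (j + 1 - i) i (P (i, w, K))`. `M` is the set of the `c x` in it for which `x p = 1` for all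
but finitely many `p` in column `1` and `x p = 0` for all but finitely many `p` in the other
columns `≥ i + 1` (so `x` is not good at `i` if `i ≤ j`; it is countable: `x` is determined by
finitely many values and `w`; restrict to finitely many nonconstant columns: `x p = 0` for all but
finitely many of all positions in the columns `≥ i + 1`). It is dense in
`P (i, w, K)`. `Two`: a point of `M` has `x p = 1` at infinitely many free positions (column `1`);
changing the value at one such large position `p` to `0` or `2` gives points of `M` close to it on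
both sides. If `c x ∈ P (i, w, K)` and `i + 1 ≤ l (c x)` then `x` is good at `i`, column `i + 1` is
free for `P (i, w, K)`, and changing one late value `1` of it to `0` or `2` gives `Two P x`.
Subpieces: if `c x ∈ P (i, w, K) ∩ Ioo u v`, take `K' ≥ K` large and `P (i + 1, x, K')`. The family
`A`: all `P (1, w, 0)` for the `w` which are `0` outside column `0`; `P (1, w, 0)` and
`P (1, w', 0)` are disjoint if `w ≠ w'`. -/
def S_Ta : Prop := C_Ta

/-- **S_Tb**. Let `(C, l0)` be the basic structure for `j`. Choose by recursion on `m` affine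
functions `α m x = a m * x + b m`, `a m > 0`, such that the sets `C m = α m '' C` are contained in
the `m`-th interval `(u m, v m)` with rational end points and pairwise disjoint: the finite union of
the earlier `C k` is closed with empty interior, so its complement contains an open subinterval of
`(u m, v m)`; map `(-1, 1)` onto it. Let `l x = l0 (y)` if `x = α m y ∈ C m` and `l x = 0` outside
the union. For `k ≥ 1` the set `{x | k ≤ l x}` is the union of the sets
`α m '' {y | k ≤ l0 y}` (contained in `C m`), which are countable unions of closed sets. `{x | l x = 0}`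
is dense: the union of the `C m` is meager. `TRU`: the interval `(u, v)` contains some `C m`; take
the images of the members of the family `A` and `S_trans` for `α m` (with `l (α m x) = l0 x` for
`x ∈ C`). -/
def S_Tb : Prop :=
  S_trans → C_Ta → ∀ j : ℕ, ∃ l : ℝ → ℕ, (∀ x, l x ≤ j + 1) ∧ Dense {x | l x = 0} ∧ FS l ∧ TRU l j

end Pool.Agent.Q215.MB
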